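import Pool.Agent.ASO.DefsB
import Pool.Agent.SOR.Stmts3

/-!
# The relation for the triples in all finite groups, from `UniStmt` and `BrxStmt`
-/

open scoped BigOperators

noncomputable section

namespace Pool.Agent.PP.SO

open Pool.Agent.Helper51_AWC Pool.Agent.Helper79_WRA Pool.Agent.PP Pool.Agent.PP.KF
open Pool.Agent.PP.K9 Pool.Agent.PP.K9.H97 Pool.Agent.PP.H75 Pool.Agent.PP.T3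

section types

variable {V₀ : Type} [CommGroup V₀]

/-- the type `τ` is free: no element `≠ 1` of `P × Q` fixes the point -/
def Fre {n : ℕ} (τ : Set (SS n V₀)) : Prop :=
  ∀ s ∈ τ, (s.1 : ℕ) = 0 → (s.2.1 : ℕ) = 0 → s.2.2.1 = 1 ∧ s.2.2.2 = 1

/-- `x` is a lift of `ρ` to the integers, `0` where `ρ` is `0` -/
def Lf {ℓ : ℕ} (ρ : V₀ → ZMod ℓ) (x : V₀ → ℤ) : Prop :=
  ∀ v, (x v : ZMod ℓ) = ρ v ∧ (ρ v = 0 → x v = 0)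

/-- The properties of the functions `F₁₃` of the `(a, a₃)`-types, `F₁₂` of the `(a, T)`-types, `K` of
the `T`-types.  `x₁`, `x₂` are lifts of `ρ₁`, `ρ₂`. -/
structure FX (ℓ n : ℕ) (ρ₁ ρ₂ : V₀ → ZMod ℓ) (x₁ x₂ : V₀ → ℤ) (c d : V₀)
    (F₁₃ F₁₂ : Set (SS n V₀) → ℚ) (K : Set (Fin n × V₀ × V₀) → ℚ) : Prop where
  nf : ∀ τ, ¬ Fre τ → F₁₃ τ = 0 ∧ F₁₂ τ = 0
  z13 : ∀ τ, (∀ s ∈ τ, ρ₁ s.2.2.1 = 0) ∨ (∀ s ∈ τ, ρ₂ s.2.2.2 = 0) → F₁₃ τ = 0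
  z12 : ∀ τ, Fre τ → (∀ s ∈ τ, ρ₁ s.2.2.1 = 0 ∧ ρ₂ s.2.2.2 = 0) →
    F₁₂ τ = (x₁ c⁻¹ * x₂ d⁻¹ : ℤ) / (ℓ : ℚ) ^ 2
  prod : ∀ τ, Fre τ → (∀ s ∈ τ, ∃ s' ∈ τ, (s'.1 : ℕ) = 0 ∧ s'.2 = s.2) →
    (∀ s ∈ τ, (s.2.1 : ℕ) = 0 → ρ₁ s.2.2.1 = 0 ∧ ρ₂ s.2.2.2 = 0) →
    F₁₂ τ = (x₁ c⁻¹ * x₂ d⁻¹ : ℤ) / (ℓ : ℚ) ^ 2 - K {u | ∃ s ∈ τ, s.2 = u}
  K0 : ∀ U, (∀ u ∈ U, ρ₁ u.2.1 = 0) ∨ (∀ u ∈ U, ρ₂ u.2.2 = 0) → K U = 0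
  K1 : ∀ (U : Set (Fin n × V₀ × V₀)) (κ₁ κ₂ : V₀), (∃ u ∈ U, (u.1 : ℕ) = 1) →
    (∀ u ∈ U, (u.1 : ℕ) = 1 → u.2 = (κ₁, κ₂)) → K U = (x₁ κ₁ * x₂ κ₂ : ℤ) / (ℓ : ℚ) ^ 2

end types

/-- RTY: the relation for the triples in all finite groups, with universal functions of the types.

Proof.  `UniStmt` with `e = r`, `n = ℓ ^ r`, the group `V₀ × V₀`, `r₁(p, q) = x₁(p)/ℓ`,
`r₂(p, q) = x₂(q)/ℓ`, `p₀ = (c⁻¹, d⁻¹)`, gives `Φ`, `Ψ`, `K'`.  A type `τ ⊆ SS n V₀` is carried to the set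
`τ' ⊆ L2 n (V₀ × V₀)` by the bijection `Fin n ≃ ZMod n`; `τ'_T = {(k, p, q) : (0, k, p, q) ∈ τ}`.
`F₁₃ τ = - 12 Φ(τ')`, `F₁₂ τ = x₁(c⁻¹) x₂(d⁻¹)/ℓ² - K'(τ'_T) - 12 Ψ(τ')` if `τ` is free, `0` otherwise;
`K U = K'(U')`.  `nf` is clear, `z13`, `z12`, `K0`, `K1` are the properties of `Φ`, `Ψ`, `K'`
(`x_i(v)/ℓ ∈ Rl ℓ` iff `ρ_i(v) = 0`).  `prod`: `Ψ(τ') = 0` and `τ'_T = {u : (k, u) ∈ τ for some k}`.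
For `G`: `X` = the triples `(x, y, u)` with `x y x⁻¹ y⁻¹ = g₁ u g₂ u⁻¹`, `g₁ = ι(c) s`, `g₂ = ι(d) t`, `D` of
BRX, `Q` = the subgroup `P × Q` of `V₀ × V₀`, `q₀ = (c⁻¹, d⁻¹)`, `(p, q)` acts as `(x, y, u) ↦ (p x p⁻¹,
p y p⁻¹, p u q⁻¹)` (BRX for `V₁ = ι(P)`, `V₂ = ι(Q)`, they commute with `g₁`, `g₂`: `V₀` is commutative and
`P`, `Q` commute with `s`, `t`), `σ : (x, y, u) ↦ (s⁻¹ x s, s⁻¹ y s, s⁻¹ u t)`, its order divides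
`orderOf s * orderOf t` and is prime to `ℓ`; `T*` acts as `q₀ σ`.  `Γ` = the subgroup of `Equiv.Perm X`
of the elements which commute with `P × Q` and `σ` (it contains `a`, `b`, `A`, `B`, `T*`), or the
centraliser.  `M` = a number with `M ≡ 1` modulo `n`, `x ^ M = x ^ m` for all `x ∈ G`: `M = m + n' k`...
(`x = x_ℓ x_r`, `x ^ m = x_ℓ`; let `f` be the part of the order of `G` which is prime to `ℓ`, `M ≡ 1` modulo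
`n`, `M ≡ 0` modulo `f`, then `x ^ M = x_ℓ` because `x_ℓ ^ n = 1`).  `(a ^ M) ^ n = 1`, because
`x ^ (M n) = 1`; the same for `a₃` and `T` (`κ ^ (M n) = 1`).  By the formulas of BRX for the powers
`ty2 n i q (a ^ M) (a₃ ^ M) z` is the image of `t13 ...` and `ty2 n i q (a ^ M) (T ^ M) z` the image of
`t12 ...` (for an integer `k` let `i` be its rest modulo `n`: `(a ^ M) ^ k = (a ^ M) ^ i`), `ty1` is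
`τ'_T`; `z ∈ Gd q` iff the types are free.  The relation of UNI is the assertion. -/
def RtyStmt : Prop := ∀ (ℓ : ℕ) [Fact ℓ.Prime] (V₀ : Type) [CommGroup V₀] [Finite V₀],
  (∀ v : V₀, v ^ ℓ = 1) → ∀ (n : ℕ) (ρ₁ ρ₂ : V₀ → ZMod ℓ), (∃ r, 0 < r ∧ n = ℓ ^ r) → Hm ρ₁ →
  Hm ρ₂ → ∀ (x₁ x₂ : V₀ → ℤ), Lf ρ₁ x₁ → Lf ρ₂ x₂ → ∀ (c d : V₀),
  ∃ (F₁₃ F₁₂ : Set (SS n V₀) → ℚ) (K : Set (Fin n × V₀ × V₀) → ℚ),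
    FX ℓ n ρ₁ ρ₂ x₁ x₂ c d F₁₃ F₁₂ K ∧
    ∀ (G : Type) [Group G] [Finite G] (m : ℕ) (ι : V₀ →* G), Function.Injective ι →
      PE ℓ n m G → Rel ℓ n m ι c d F₁₃ F₁₂

end Pool.Agent.PP.SO
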