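import Pool.Agent.Helper47_SOR.AUT
import Pool.Agent.Helper16_SOR.AVE
import Pool.Agent.Helper19_SOR.BRX
import Pool.Agent.Helper76_SOR.GAU
import Pool.Agent.Helper15_SOR.HOL
import Pool.Agent.Helper17_SOR.IND
import Pool.Agent.Helper95_SOR.INV
import Pool.Agent.Helper56_SOR.IVF
import Pool.Agent.Helper32_SOR.LEX
import Pool.Agent.Helper69_SOR.LFT
import Pool.Agent.Helper81_SOR.MOB
import Pool.Agent.Helper13_SOR.NDI
import Pool.Agent.Helper17_SOR.NDJ
import Pool.Agent.Helper45_SOR.NDK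
import Pool.Agent.Helper62_SOR.OOA
import Pool.Agent.Helper82_SOR.OOT
import Pool.Agent.Helper47_SOR.PRG
import Pool.Agent.Helper44_SOR.REL
import Pool.Agent.Helper13_SOR.TAB
import Pool.Agent.Helper69_SOR.THX
import Pool.Agent.Helper10_SOR.TIN
import Pool.Agent.Helper86_SOR.TMU
import Pool.Agent.Helper77_SOR.TTT
import Pool.Agent.Helper27_SOR.TWE
import Pool.Agent.Helper32_SOR.UNI
import Pool.Agent.Helper81_SOR.XRE
import Pool.Agent.Helper3_SOR.XSG

/-!
# Squad SOR: the second order relation, closed statements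
-/

namespace Pool.Agent.SOR

theorem thx_ : ThxStmt := H69.T.thx
theorem lft_ : LftStmt := H69.lft
theorem aut_ : AutStmt := H47.aut
theorem ave_ : AveStmt := H16.ave
theorem ind_ : IndStmt := H17.ind
theorem inv_ : InvStmt := H95.inv
theorem gau_ : GauStmt := H76.gau
theorem ndk_ : NdkStmt := H45.ndk
theorem mob_ : MobStmt := H81.mob
theorem brx_ : BrxStmt := H19.brx
theorem lex_ : LexStmt := H32.lex
theorem ivf_ : IvfStmt := H56.ivf thx_
theorem prg_ : PrgStmt := H47.prg thx_
theorem tin_ : TinStmt := H10.tin ivf_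
theorem tmu_ : TmuStmt := H86.tmu ivf_
theorem ttt_ : TttStmt := H77.ttt ivf_
theorem tab_ : TabStmt := H13.tab tin_ tmu_ ttt_ aut_
theorem twe_ : TweStmt := H27.twe tab_ aut_ inv_ lft_
theorem ndi_ : NdiStmt := H13.ndi ivf_
theorem ndj_ : NdjStmt := H17.ndj prg_ ivf_
theorem hol_ : HolStmt := H15.hol ave_
theorem ooa_ : OoaStmt := H62.ooa ave_ hol_ ind_
theorem oot_ : OotStmt := H82.oot ave_ hol_ ind_
theorem rel_ : RelStmt := H44.rel gau_ inv_ lft_ twe_ ndi_ ndj_ ndk_ ooa_ oot_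
theorem xre_ : XreStmt := H81.xre rel_
theorem xsg_ : XsgStmt := H3.xsg xre_

/-- the universal form of the second order relation -/
theorem uni_ : UniStmt := H32.uni lex_ xsg_

end Pool.Agent.SOR
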